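import Pool.Agent.H31.Q.Defs
import Pool.Agent.H98.Code.Minor

set_option autoImplicit false

/-!
In a code with sides every nonzero word below a full state splits (MP_a46c6f_co, full Q1, row (D)).
-/

namespace Pool.Agent.H11.Q

open Pool.Agent.H98.Code
open Pool.Agent.H31.Q hiding k_add_self

variable {V : Type} [Fintype V]

theorem kf_z_of_letter : ∀ a : K, a.1 = 1 → kf z a = 1 := by decide

/-- if a word contained in `u` on the support and disjoint from the remainder splits, then `u` splits -/
theorem splits_up {L : Submodule (ZMod 2) (V → K)} (hL : IsCode L)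
    {S : (V → K) → Finset V → Prop} (hS : Sides L S) {u k : V → K} {Y : Finset V} (hu : S u Y)
    (hk : k ∈ L) (hk1 : ∀ v, u v ≠ 0 → k v = 0 ∨ k v = u v) (hk0 : ∀ v, u v = 0 → v ∉ Y → k v = 0)
    (hkY : ∀ v ∈ Y, k v ≠ 0) {g : V} (hg : Splits L k g) (hug : u g ≠ z) : Splits L u g := by
  obtain ⟨c, hc, d, hd, hcd, hcg, hdg, hdis⟩ := hg
  have hkg : k g = 0 := by
    rw [← hcd, Pi.add_apply, hcg, hdg]
    decide
  have hcv : ∀ v, v ≠ g → c v = 0 ∨ c v = k v := by
    intro v hv
    have hs : k v = c v + d v := by rw [← hcd]; rfl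
    rcases hdis v hv with h1 | h1
    · exact Or.inl h1
    · rw [h1, add_zero] at hs
      exact Or.inr hs.symm
  have huL := (hS.mem u Y hu).1
  have hgY : g ∉ Y := fun h0 => hkY g h0 hkg
  -- `u g = 0`
  have hug0 : u g = 0 := by
    by_contra hne
    have h1 : form c u = kf z (u g) := by
      unfold form
      rw [Finset.sum_eq_single g]
      · rw [hcg]
      · intro v _ hv
        by_cases huv : u v = 0
        · rw [huv, kf_zero_right]
        · rcases hcv v hv with h2 | h2
          · rw [h2, kf_zero_left]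
          · rcases hk1 v huv with h3 | h3
            · rw [h2, h3, kf_zero_left]
            · rw [h2, h3, kf_self]
      · intro h; exact absurd (Finset.mem_univ g) h
    have h2 := hL.iso c hc u huL
    rw [h1] at h2
    revert h2 hne hug
    generalize u g = a
    revert a
    decide
  have hcu : ∀ v, u v ≠ 0 → c v = 0 ∨ c v = u v := by
    intro v hv
    have hvg : v ≠ g := fun h0 => hv (h0 ▸ hug0)
    rcases hcv v hvg with h2 | h2
    · exact Or.inl h2
    · rw [h2]
      exact hk1 v hv
  obtain ⟨c', hc', e1, e2, e3, -, -⟩ := hS.part u Y hu c hc hcu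
  have hcc : c + c' ∈ L := L.add_mem hc hc'
  have hval : ∀ v, v ≠ g → (c + c') v = 0 ∨ (c + c') v = u v := by
    intro v hv
    by_cases huv : u v = 0
    · left
      by_cases hvY : v ∈ Y
      · rw [Pi.add_apply, e1 v hvY, k_add_self]
      · rw [Pi.add_apply, e2 v huv hvY, add_zero]
        rcases hcv v hv with h2 | h2
        · exact h2
        · rw [h2]
          exact hk0 v huv hvY
    · rw [Pi.add_apply]
      rcases hcu v huv with h2 | h2 <;> rcases e3 v huv with h3 | h3 <;> rw [h2, h3]
      · exact Or.inl (add_zero _)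
      · exact Or.inr (zero_add _)
      · exact Or.inr (add_zero _)
      · exact Or.inl (k_add_self _)
  have hg1 : (c + c') g = z := by
    rw [Pi.add_apply, e2 g hug0 hgY, hcg, add_zero]
  refine ⟨c + c', hcc, u + (c + c'), L.add_mem huL hcc, ?_, hg1, ?_, ?_⟩
  · rw [add_comm u, ← add_assoc, w_add_self, zero_add]
  · rw [Pi.add_apply, hug0, hg1, zero_add]
  · intro v hv
    rcases hval v hv with h1 | h1
    · exact Or.inl h1
    · right
      rw [Pi.add_apply, h1, k_add_self]

/-- **(K)** in a code with sides every nonzero word which is `0` at `e` and contained in a full state `D`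
splits -/
theorem splits_of_le {L : Submodule (ZMod 2) (V → K)} (hL : IsCode L)
    {S : (V → K) → Finset V → Prop} (hS : Sides L S) {e : V} {D : V → K} (hD : D ∈ L)
    (hD1 : ∀ v, v ≠ e → (D v).1 = 1) {u : V → K} (hu : u ∈ L) (hu0 : u ≠ 0) (hue : u e = 0)
    (hle : ∀ v, v ≠ e → u v = 0 ∨ u v = D v) : ∃ g, Splits L u g := by
  have hlet : ∀ a : K, a.1 = 1 → a ≠ 0 ∧ a ≠ z := by decide
  -- the side which does not contain `e`
  obtain ⟨Y, hY, heY⟩ : ∃ Y, S u Y ∧ e ∉ Y := by
    obtain ⟨Y, hY⟩ := hS.ex u hu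
    by_cases heY : e ∈ Y
    · obtain ⟨Y', hY', h1⟩ := hS.compl u Y hY
      exact ⟨Y', hY', fun h0 => ((h1 e).1 h0).2 heY⟩
    · exact ⟨Y, hY, heY⟩
  have hYe : ∀ v ∈ Y, v ≠ e := fun v hv h0 => heY (h0 ▸ hv)
  have hse : ∀ v, u v ≠ 0 → v ≠ e := fun v hv h0 => hv (h0 ▸ hue)
  have huz : ZFree u := by
    intro v hv
    by_cases hve : v = e
    · rw [hve, hue] at hv
      exact absurd hv (by decide)
    · rcases hle v hve with h1 | h1
      · rw [h1] at hv
        exact absurd hv (by decide)
      · rw [h1] at hv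
        exact (hlet _ (hD1 v hve)).2 hv
  have hkD : ∀ v, u v ≠ 0 → D v = 0 ∨ D v = u v := by
    intro v hv
    rcases hle v (hse v hv) with h1 | h1
    · exact absurd h1 hv
    · exact Or.inr h1.symm
  obtain ⟨k, hk, e1, e2, e3, ⟨Y1, hY1, hS1⟩, Y2, hY2, hS2⟩ := hS.part u Y hY D hD hkD
  have hkY : ∀ v ∈ Y, k v ≠ 0 := by
    intro v hv
    rw [e1 v hv]
    exact (hlet _ (hD1 v (hYe v hv))).1
  have hY1' : Y1 = ∅ := by
    rw [Finset.eq_empty_iff_forall_notMem]
    intro v hv
    exact hkY v (hY1 hv) ((hS.mem k Y1 hS1).2 v hv)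
  by_cases hk0 : k = 0
  · have hYe' : Y = ∅ := by
      rw [Finset.eq_empty_iff_forall_notMem]
      intro v hv
      exact hkY v hv (by rw [hk0]; rfl)
    rw [hYe'] at hY
    exact hS.wc u hY huz hu0
  · have hkz : ZFree k := by
      intro v hv
      by_cases hvY : v ∈ Y
      · rw [e1 v hvY] at hv
        exact (hlet _ (hD1 v (hYe v hvY))).2 hv
      · by_cases huv : u v = 0
        · rw [e2 v huv hvY] at hv
          exact absurd hv (by decide)
        · rcases e3 v huv with h1 | h1
          · rw [h1] at hv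
            exact absurd hv (by decide)
          · rw [h1] at hv
            exact huz v hv
    rw [hY1'] at hS1
    obtain ⟨g, hg⟩ := hS.wc k hS1 hkz hk0
    exact ⟨g, splits_up hL hS hY hk e3 e2 hkY hg (huz g)⟩

end Pool.Agent.H11.Q
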